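import Mathlib

namespace Pool.Agent.H.MP_f42450_an

open Set Metric MeasureTheory Filter Topology
open scoped ENNReal NNReal RealInnerProductSpace

lemma two0 {p : ℝ} (hp : 1 ≤ p) {s t x : ℝ} (h1 : t ≤ x) (h2 : x ≤ s) :
    |x| ^ p + |s + t - x| ^ p ≤ |s| ^ p + |t| ^ p := by
  have key : ∀ θ : ℝ, 0 ≤ θ → θ ≤ 1 → |θ * s + (1 - θ) * t| ^ p ≤ θ * |s| ^ p + (1 - θ) * |t| ^ p := by
    intro θ h0 h1
    have h3 := (convexOn_rpow hp).2 (abs_nonneg s) (abs_nonneg t) h0 (sub_nonneg.2 h1) (by ring)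
    refine le_trans (Real.rpow_le_rpow (abs_nonneg _) ?_ (by linarith)) h3
    refine (abs_add_le _ _).trans (le_of_eq ?_)
    rw [abs_mul, abs_mul, abs_of_nonneg h0, abs_of_nonneg (sub_nonneg.2 h1)]; rfl
  rcases eq_or_lt_of_le (h1.trans h2) with h | h
  · obtain rfl : x = s := le_antisymm h2 (h ▸ h1)
    simp
  have hd : 0 < s - t := sub_pos.2 h
  have a0 : 0 ≤ (x - t) / (s - t) := div_nonneg (sub_nonneg.2 h1) hd.le
  have a1 : (x - t) / (s - t) ≤ 1 := (div_le_one hd).2 (by linarith)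
  have k1 := key _ a0 a1
  have k2 := key (1 - (x - t) / (s - t)) (by linarith) (by linarith)
  have e1 : (x - t) / (s - t) * s + (1 - (x - t) / (s - t)) * t = x := by field_simp; ring
  have e2 : (1 - (x - t) / (s - t)) * s + (1 - (1 - (x - t) / (s - t))) * t = s + t - x := by
    field_simp; ring
  rw [e1] at k1
  rw [e2] at k2
  linarith

lemma two {p : ℝ} (hp : 1 ≤ p) (a a' b b' : ℝ) :
    ‖max b b' - max a a'‖ₑ ^ p + ‖min b b' - min a a'‖ₑ ^ p ≤ ‖b - a‖ₑ ^ p + ‖b' - a'‖ₑ ^ p := by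
  have e : ∀ t : ℝ, ‖t‖ₑ ^ p = ENNReal.ofReal (|t| ^ p) := fun t => by
    rw [← ofReal_norm_eq_enorm, ENNReal.ofReal_rpow_of_nonneg (norm_nonneg _) (by linarith),
      Real.norm_eq_abs]
  simp only [e]
  rw [← ENNReal.ofReal_add (by positivity) (by positivity),
    ← ENNReal.ofReal_add (by positivity) (by positivity)]
  refine ENNReal.ofReal_le_ofReal ?_
  rcases le_total a a' with h | h <;> rcases le_total b b' with h' | h'
  · rw [max_eq_right h, max_eq_right h', min_eq_left h, min_eq_left h', add_comm]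
  · rw [max_eq_right h, max_eq_left h', min_eq_left h, min_eq_right h']
    have := two0 hp (s := b - a) (t := b' - a') (x := b - a') (by linarith) (by linarith)
    rwa [show b - a + (b' - a') - (b - a') = b' - a by ring] at this
  · rw [max_eq_left h, max_eq_right h', min_eq_right h, min_eq_left h']
    have := two0 hp (s := b' - a') (t := b - a) (x := b' - a) (by linarith) (by linarith)
    rw [show b' - a' + (b - a) - (b' - a) = b - a' by ring] at this
    linarith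
  · rw [max_eq_left h, max_eq_left h', min_eq_right h, min_eq_right h']

variable {E : Type} [NormedAddCommGroup E] [InnerProductSpace ℝ E] [FiniteDimensional ℝ E]
  [MeasurableSpace E] [BorelSpace E]

noncomputable def N (p h : ℝ) (v : E → ℝ) : ℝ≥0∞ :=
  ∫⁻ q : E × E, ‖v (q.1 + h • q.2) - v q.1‖ₑ ^ p ∂(volume.prod (volume.restrict (ball 0 1)))

noncomputable def F (p h : ℝ) (v : E → ℝ) (x y : E) : ℝ≥0∞ :=
  if ‖y - x‖ < h then ‖v y - v x‖ₑ ^ p else 0

noncomputable def I (p h : ℝ) (v : E → ℝ) : ℝ≥0∞ :=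
  ∫⁻ q : E × E, F p h v q.1 q.2 ∂(volume.prod volume)

lemma F_meas (p h : ℝ) {v : E → ℝ} (hv : Continuous v) :
    Measurable fun q : E × E => F p h v q.1 q.2 := by
  unfold F
  refine Measurable.ite (measurableSet_lt (by fun_prop) measurable_const) ?_ measurable_const
  exact (((hv.comp continuous_snd).sub (hv.comp continuous_fst)).measurable.enorm).pow_const p

lemma scal (g : E → ℝ≥0∞) (hg : Measurable g) {h : ℝ} (hh : 0 < h) :
    ∫⁻ z, g z = ENNReal.ofReal (h ^ Module.finrank ℝ E) * ∫⁻ ζ, g (h • ζ) := by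
  rw [← lintegral_map hg (measurable_const_smul h), Measure.map_addHaar_smul volume hh.ne',
    lintegral_smul_measure, smul_eq_mul, ← mul_assoc, ← ENNReal.ofReal_mul (by positivity),
    abs_of_pos (by positivity), mul_inv_cancel₀ (by positivity), ENNReal.ofReal_one, one_mul]

lemma N_meas (p h : ℝ) {v : E → ℝ} (hv : Continuous v) :
    Measurable fun q : E × E => ‖v (q.1 + h • q.2) - v q.1‖ₑ ^ p :=
  (Continuous.measurable (by fun_prop : Continuous fun q : E × E =>
    v (q.1 + h • q.2) - v q.1)).enorm.pow_const p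

lemma I_eq (p : ℝ) {h : ℝ} (hh : 0 < h) {v : E → ℝ} (hv : Continuous v) :
    I p h v = ENNReal.ofReal (h ^ Module.finrank ℝ E) * N p h v := by
  rw [I, N, lintegral_prod _ (F_meas p h hv).aemeasurable,
    lintegral_prod _ (N_meas p h hv).aemeasurable, ← lintegral_const_mul' _ _ ENNReal.ofReal_ne_top]
  refine lintegral_congr fun x => ?_
  have hm : Measurable fun z => F p h v x (x + z) :=
    (F_meas p h hv).comp (measurable_const.prodMk (measurable_const_add x))
  rw [← lintegral_add_left_eq_self _ x, scal _ hm hh, ← lintegral_indicator measurableSet_ball]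
  congr 1
  refine lintegral_congr fun ζ => ?_
  simp only [F, Function.comp, add_sub_cancel_left, norm_smul, Real.norm_eq_abs, abs_of_pos hh,
    indicator, mem_ball_zero_iff, mul_lt_iff_lt_one_right hh]

noncomputable def rf (ν : E) : E ≃ₗᵢ[ℝ] E := (ℝ ∙ ν)ᗮ.reflection

lemma rf_apply {ν : E} (hν : ‖ν‖ = 1) (x : E) : rf ν x = x - (2 * ⟪ν, x⟫) • ν := by
  rw [rf, Submodule.reflection_orthogonal_apply, Submodule.reflection_singleton_apply, hν]
  simp [two_smul, two_mul, add_smul]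

lemma rf_rf (ν x : E) : rf ν (rf ν x) = x := Submodule.reflection_reflection _ x

lemma rf_inner {ν : E} (hν : ‖ν‖ = 1) (x : E) : ⟪ν, rf ν x⟫ = -⟪ν, x⟫ := by
  rw [rf_apply hν, inner_sub_right, inner_smul_right, real_inner_self_eq_norm_sq, hν]; ring

lemma rf_dist {ν : E} (hν : ‖ν‖ = 1) {x y : E} (hx : 0 ≤ ⟪ν, x⟫) (hy : 0 ≤ ⟪ν, y⟫) :
    ‖y - x‖ ≤ ‖rf ν y - x‖ := by
  have e : rf ν y - x = (y - x) - (2 * ⟪ν, y⟫) • ν := by rw [rf_apply hν]; abel
  refine le_of_sq_le_sq ?_ (norm_nonneg _)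
  rw [e, norm_sub_sq_real (y - x), norm_smul, hν, inner_smul_right, inner_sub_left,
    real_inner_comm ν y, real_inner_comm ν x, mul_one, Real.norm_eq_abs, sq_abs]
  nlinarith

noncomputable def pol (ν : E) (v : E → ℝ) (x : E) : ℝ :=
  if 0 ≤ ⟪ν, x⟫ then max (v x) (v (rf ν x)) else min (v x) (v (rf ν x))

lemma pol_pos {ν : E} (v : E → ℝ) {x : E} (hx : 0 ≤ ⟪ν, x⟫) :
    pol ν v x = max (v x) (v (rf ν x)) := if_pos hx

lemma pol_neg {ν : E} (hν : ‖ν‖ = 1) (v : E → ℝ) {x : E} (hx : 0 ≤ ⟪ν, x⟫) :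
    pol ν v (rf ν x) = min (v x) (v (rf ν x)) := by
  rw [pol, rf_rf, rf_inner hν]
  split_ifs with h
  · have h0 : ⟪ν, x⟫ = 0 := by linarith
    rw [rf_apply hν, h0]; simp
  · exact min_comm _ _

lemma side {ν : E} (hν : ‖ν‖ = 1) (x : E) : 0 ≤ ⟪ν, x⟫ ∨ ∃ y, 0 ≤ ⟪ν, y⟫ ∧ x = rf ν y := by
  rcases le_total 0 ⟪ν, x⟫ with h | h
  · exact Or.inl h
  · exact Or.inr ⟨rf ν x, by rw [rf_inner hν]; linarith, (rf_rf ν x).symm⟩

lemma rf_sub (ν x y : E) : ‖rf ν y - rf ν x‖ = ‖y - x‖ := by rw [← map_sub, (rf ν).norm_map]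

lemma rf_sub' (ν x y : E) : ‖y - rf ν x‖ = ‖rf ν y - x‖ := by rw [← rf_sub ν, rf_rf]

lemma pol_lip {ν : E} (hν : ‖ν‖ = 1) {v : E → ℝ} {K : ℝ≥0} (hv : LipschitzWith K v) :
    LipschitzWith K (pol ν v) := by
  have h0 : ∀ x y, |v y - v x| ≤ K * ‖y - x‖ := fun x y => by
    simpa [dist_eq_norm] using hv.dist_le_mul y x
  have key : ∀ x y, 0 ≤ ⟪ν, x⟫ → 0 ≤ ⟪ν, y⟫ → |pol ν v (rf ν y) - pol ν v x| ≤ K * ‖rf ν y - x‖ := by
    intro x y hx hy
    rw [pol_pos v hx, pol_neg hν v hy]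
    have h1 := mul_le_mul_of_nonneg_left (rf_dist hν hx hy) K.2
    have a1 := abs_le.1 (h0 x y)
    have a2 := abs_le.1 (h0 (rf ν x) (rf ν y))
    have a3 := abs_le.1 (h0 x (rf ν y))
    have a4 := abs_le.1 (h0 (rf ν x) y)
    rw [rf_sub] at a2
    rw [rf_sub'] at a4
    change (K : ℝ) * _ ≤ K * _ at h1
    rw [abs_le]
    rcases le_total (v x) (v (rf ν x)) with h | h <;> rcases le_total (v y) (v (rf ν y)) with h' | h' <;>
      simp only [max_eq_right h, max_eq_left h, min_eq_right h', min_eq_left h', h, h',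
        max_eq_right, max_eq_left, min_eq_right, min_eq_left] <;> constructor <;>
      linarith [a1.1, a1.2, a2.1, a2.2, a3.1, a3.2, a4.1, a4.2]
  refine LipschitzWith.of_dist_le_mul fun y x => ?_
  rw [Real.dist_eq, dist_eq_norm]
  rcases side hν x with hx | ⟨x, hx, rfl⟩ <;> rcases side hν y with hy | ⟨y, hy, rfl⟩
  · rw [pol_pos v hx, pol_pos v hy]
    refine (abs_max_sub_max_le_max _ _ _ _).trans (max_le (h0 _ _) ?_)
    rw [← rf_sub ν]; exact h0 _ _
  · exact key x y hx hy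
  · rw [abs_sub_comm, norm_sub_rev]; exact key y x hy hx
  · rw [pol_neg hν v hx, pol_neg hν v hy]
    refine (abs_min_sub_min_le_max _ _ _ _).trans (max_le ?_ (h0 _ _))
    rw [rf_sub ν]; exact h0 _ _

noncomputable def Q (p h : ℝ) (ν : E) (v : E → ℝ) (x y : E) : ℝ≥0∞ :=
  F p h v x y + F p h v (rf ν x) (rf ν y) + (F p h v (rf ν x) y + F p h v x (rf ν y))

lemma Q_le {p : ℝ} (hp : 1 ≤ p) (h : ℝ) {ν : E} (hν : ‖ν‖ = 1) (v : E → ℝ) (x y : E) :
    Q p h ν (pol ν v) x y ≤ Q p h ν v x y := by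
  have key : ∀ x y, 0 ≤ ⟪ν, x⟫ → 0 ≤ ⟪ν, y⟫ → Q p h ν (pol ν v) x y ≤ Q p h ν v x y := by
    intro x y hx hy
    simp only [Q, F, rf_sub, rf_sub' ν x y, pol_pos v hx, pol_pos v hy, pol_neg hν v hx,
      pol_neg hν v hy]
    by_cases h2 : ‖rf ν y - x‖ < h
    · simp only [h2, (rf_dist hν hx hy).trans_lt h2, if_true]
      rcases le_total (v x) (v (rf ν x)) with h | h <;>
        rcases le_total (v y) (v (rf ν y)) with h' | h' <;>
        simp only [h, h', max_eq_right, max_eq_left, min_eq_right, min_eq_left] <;>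
        exact le_of_eq (by ring)
    · simp only [h2, if_false, add_zero]
      split_ifs
      · exact two hp _ _ _ _
      · exact le_rfl
  have s1 : ∀ w x y, Q p h ν w (rf ν x) y = Q p h ν w x y := fun w x y => by
    simp only [Q, rf_rf]; ring
  have s2 : ∀ w x y, Q p h ν w x (rf ν y) = Q p h ν w x y := fun w x y => by
    simp only [Q, rf_rf]; ring
  rcases side hν x with hx | ⟨x, hx, rfl⟩ <;> rcases side hν y with hy | ⟨y, hy, rfl⟩ <;>
    (try simp only [s1, s2]) <;> exact key x y hx hy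

lemma Q_int (p h : ℝ) (ν : E) {v : E → ℝ} (hv : Continuous v) :
    ∫⁻ q : E × E, Q p h ν v q.1 q.2 ∂(volume.prod volume) = 4 * I p h v := by
  have hm := F_meas p h hv
  have m1 := (rf ν).measurePreserving
  have m0 := MeasurePreserving.id (volume : Measure E)
  have a1 := (m1.prod m1).lintegral_comp hm
  have a2 := (m1.prod m0).lintegral_comp hm
  have a3 := (m0.prod m1).lintegral_comp hm
  simp only [Prod.map_fst, Prod.map_snd, id] at a1 a2 a3
  have b1 : Measurable fun q : E × E => F p h v q.1 q.2 + F p h v (rf ν q.1) (rf ν q.2) :=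
    hm.add (hm.comp (m1.prod m1).measurable)
  have b2 : Measurable fun q : E × E => F p h v (rf ν q.1) q.2 := hm.comp (m1.prod m0).measurable
  unfold Q
  rw [lintegral_add_left b1, lintegral_add_left hm, lintegral_add_left b2, a1, a2, a3, I]
  ring

lemma N_pol {p : ℝ} (hp : 1 ≤ p) {h : ℝ} (hh : 0 < h) {ν : E} (hν : ‖ν‖ = 1) {v : E → ℝ} {K : ℝ≥0}
    (hv : LipschitzWith K v) : N p h (pol ν v) ≤ N p h v := by
  have h1 := lintegral_mono (μ := volume.prod volume) fun q : E × E => Q_le hp h hν v q.1 q.2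
  rw [Q_int p h ν hv.continuous, Q_int p h ν (pol_lip hν hv).continuous,
    ENNReal.mul_le_mul_iff_right (by norm_num) (by norm_num), I_eq p hh hv.continuous,
    I_eq p hh (pol_lip hν hv).continuous,
    ENNReal.mul_le_mul_iff_right (by simp; positivity) ENNReal.ofReal_ne_top] at h1
  exact h1

structure Kl (p : ℝ) (K : ℝ≥0) (R d c : ℝ) (M : ℝ≥0∞) (v : E → ℝ) : Prop where
  lip : LipschitzWith K v
  nn : ∀ x, 0 ≤ v x
  supp : ∀ x, R ≤ ‖x‖ → v x = 0
  c0 : v 0 = c
  zero : ∀ r, d ≤ r → ∃ z, ‖z‖ = r ∧ v z = 0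
  en : ∀ h, 0 < h → N p h v ≤ ENNReal.ofReal (h ^ p) * M

variable {p : ℝ} {K : ℝ≥0} {R d c : ℝ} {M : ℝ≥0∞}

lemma Kl.pol (hp : 1 ≤ p) {v : E → ℝ} (h : Kl p K R d c M v) {ν : E} (hν : ‖ν‖ = 1) :
    Kl p K R d c M (pol ν v) where
  lip := pol_lip hν h.lip
  nn x := by
    unfold MP_f42450_an.pol
    split_ifs
    · exact le_max_of_le_left (h.nn _)
    · exact le_min (h.nn _) (h.nn _)
  supp x hx := by
    simp [MP_f42450_an.pol, h.supp x hx, h.supp (rf ν x) (by rwa [(rf ν).norm_map])]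
  c0 := by simp [MP_f42450_an.pol, h.c0]
  zero r hr := by
    obtain ⟨z, hz, h0⟩ := h.zero r hr
    rcases side hν z with hx | ⟨x, hx, rfl⟩
    · exact ⟨rf ν z, by rwa [(rf ν).norm_map], by rw [pol_neg hν v hx, h0, min_eq_left (h.nn _)]⟩
    · exact ⟨_, hz, by rw [pol_neg hν v hx, h0, min_eq_right (h.nn _)]⟩
  en t ht := (N_pol hp ht hν h.lip).trans (h.en t ht)

omit [InnerProductSpace ℝ E] [FiniteDimensional ℝ E] [MeasurableSpace E] [BorelSpace E] in
lemma hcs {v : E → ℝ} [ProperSpace E] (h : ∀ x, R ≤ ‖x‖ → v x = 0) : HasCompactSupport v :=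
  HasCompactSupport.intro (isCompact_closedBall 0 R) fun x hx =>
    h x (by rw [mem_closedBall_zero_iff] at hx; linarith)

lemma Kl.bd {v : E → ℝ} (h : Kl p K R d c M v) (x : E) : v x ≤ c + K * |R| := by
  have h1 := h.lip.dist_le_mul x 0
  rw [Real.dist_eq, dist_zero_right, h.c0] at h1
  rcases le_total R ‖x‖ with hx | hx
  · rw [h.supp x hx, ← h.c0]; have := h.nn 0; positivity
  · have := mul_le_mul_of_nonneg_left (hx.trans (le_abs_self R)) K.2
    change (K : ℝ) * _ ≤ K * _ at this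
    linarith [(abs_le.1 h1).2]

lemma Kl.lim {v : ℕ → E → ℝ} (h : ∀ k, Kl p K R d c M (v k)) :
    ∃ (φ : ℕ → ℕ) (w : E → ℝ), StrictMono φ ∧ Kl p K R d c M w ∧
      ∀ x, Tendsto (fun k => v (φ k) x) atTop (𝓝 (w x)) := by
  obtain ⟨f, hf⟩ : ∃ f : ℕ → BoundedContinuousFunction (closedBall (0 : E) R) ℝ,
      ∀ k x, f k x = v k x :=
    ⟨fun k => BoundedContinuousFunction.mkOfCompact
      ⟨fun x => v k x, (h k).lip.continuous.comp continuous_subtype_val⟩, fun _ _ => rfl⟩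
  have hc := BoundedContinuousFunction.arzela_ascoli (Icc 0 (c + K * |R|)) isCompact_Icc (range f)
    (by rintro _ x ⟨k, rfl⟩; rw [hf]; exact ⟨(h k).nn _, (h k).bd _⟩)
    (by
      refine (LipschitzWith.uniformEquicontinuous _ K ?_).equicontinuous
      rintro ⟨_, k, rfl⟩
      have : ⇑(f k) = v k ∘ Subtype.val := funext (hf k)
      simpa [this] using (h k).lip.comp (LipschitzWith.subtype_val _))
  obtain ⟨g, -, φ, hφ, hg⟩ := hc.tendsto_subseq fun k => subset_closure (mem_range_self k)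
  classical
  obtain ⟨w, hw⟩ : ∃ w : E → ℝ, w = fun x => if hx : x ∈ closedBall (0 : E) R then g ⟨x, hx⟩ else 0 :=
    ⟨_, rfl⟩
  have hu : ∀ k x, |v (φ k) x - w x| ≤ dist (f (φ k)) g := by
    intro k x
    rw [hw]; beta_reduce
    split_ifs with hx
    · rw [← Real.dist_eq, ← hf (φ k) ⟨x, hx⟩]; exact BoundedContinuousFunction.dist_coe_le_dist _
    · rw [(h _).supp x (by rw [mem_closedBall_zero_iff] at hx; linarith)]; simp
  have hd := tendsto_iff_dist_tendsto_zero.1 hg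
  have hp : ∀ x, Tendsto (fun k => v (φ k) x) atTop (𝓝 (w x)) := fun x =>
    tendsto_iff_dist_tendsto_zero.2 (squeeze_zero (fun _ => dist_nonneg) (fun k => hu k x) hd)
  have hl : LipschitzWith K w := LipschitzWith.of_dist_le_mul fun x y =>
    le_of_tendsto' ((hp x).dist (hp y)) fun k => (h _).lip.dist_le_mul x y
  have hn : ∀ x, 0 ≤ w x := fun x => ge_of_tendsto' (hp x) fun k => (h _).nn x
  refine ⟨φ, w, hφ, ⟨hl, hn, fun x hx => ?_, ?_, fun r hr => ?_, fun t ht => ?_⟩, hp⟩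
  · exact tendsto_nhds_unique (hp x) (by simp [fun k => (h (φ k)).supp x hx])
  · exact tendsto_nhds_unique (hp 0) (by simp [fun k => (h (φ k)).c0])
  · obtain ⟨z0, hz0, -⟩ := (h 0).zero r hr
    obtain ⟨z, hz, hm⟩ := (isCompact_sphere (0 : E) r).exists_isMinOn
      ⟨z0, by simpa using hz0⟩ hl.continuous.continuousOn
    refine ⟨z, by simpa using hz, le_antisymm (ge_of_tendsto' hd fun k => ?_) (hn z)⟩
    obtain ⟨y, hy, h0⟩ := (h (φ k)).zero r hr
    have h1 : w z ≤ w y := hm (by simpa using hy)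
    have h2 := hu k y
    rw [h0, zero_sub, abs_neg] at h2
    exact h1.trans ((le_abs_self _).trans h2)
  · have h1 := lintegral_liminf_le (μ := volume.prod (volume.restrict (ball (0 : E) 1)))
      (u := atTop) fun k => N_meas p t (h (φ k)).lip.continuous
    refine le_trans (le_trans (le_of_eq (lintegral_congr fun q => ?_)) h1)
      (liminf_le_of_frequently_le' (Frequently.of_forall fun k => (h (φ k)).en t ht))
    exact ((ENNReal.continuous_rpow_const.tendsto _).comp ((hp _).sub (hp _)).enorm).liminf_eq.symm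

noncomputable def J (e : E) (v : E → ℝ) : ℝ := ∫ x, v x * ⟪e, x⟫

lemma J_pol {e ν : E} (hν : ‖ν‖ = 1) (he : 0 < ⟪e, ν⟫) {v : E → ℝ} (hv : LipschitzWith K v)
    (hs : ∀ x, R ≤ ‖x‖ → v x = 0) (h : J e (pol ν v) ≤ J e v) {z : E} (hz : 0 < ⟪ν, z⟫) :
    v (rf ν z) ≤ v z := by
  have hc := hv.continuous
  have hc' := (pol_lip hν hv).continuous
  have hs' : ∀ x, R ≤ ‖x‖ → pol ν v x = 0 := fun x hx => by
    simp [pol, hs x hx, hs (rf ν x) (by rwa [(rf ν).norm_map])]
  obtain ⟨g, hg⟩ : ∃ g : E → ℝ, g = fun x => (pol ν v x - v x) * ⟪e, x⟫ := ⟨_, rfl⟩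
  have hgc : Continuous g := by rw [hg]; fun_prop
  have hgs : ∀ x, R ≤ ‖x‖ → g x = 0 := fun x hx => by simp [hg, hs x hx, hs' x hx]
  have hgi : Integrable g := hgc.integrable_of_hasCompactSupport (hcs hgs)
  have i1 : Integrable fun x => v x * ⟪e, x⟫ := Continuous.integrable_of_hasCompactSupport
    (by fun_prop) (hcs (R := R) fun x hx => by simp [hs x hx])
  have i2 : Integrable fun x => pol ν v x * ⟪e, x⟫ := Continuous.integrable_of_hasCompactSupport
    (by fun_prop) (hcs (R := R) fun x hx => by simp [hs' x hx])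
  have h1 : ∫ x, g x ≤ 0 := by
    simp only [hg, sub_mul]
    rw [integral_sub i2 i1]
    exact sub_nonpos.2 h
  have h2 : ∫ x, g (rf ν x) = ∫ x, g x :=
    (rf ν).measurePreserving.integral_comp (rf ν).toHomeomorph.measurableEmbedding g
  have hgc' : Continuous fun x => g (rf ν x) := hgc.comp (rf ν).continuous
  have hgs' : ∀ x, R ≤ ‖x‖ → g (rf ν x) = 0 := fun x hx => hgs _ (by rwa [(rf ν).norm_map])
  have key : ∀ x, 0 ≤ ⟪ν, x⟫ → g x + g (rf ν x) =
      (max (v x) (v (rf ν x)) - v x) * (2 * ⟪ν, x⟫ * ⟪e, ν⟫) := by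
    intro x hx
    simp only [hg, pol_pos v hx, pol_neg hν v hx]
    have e1 : ⟪e, rf ν x⟫ = ⟪e, x⟫ - 2 * ⟪ν, x⟫ * ⟪e, ν⟫ := by
      rw [rf_apply hν, inner_sub_right, inner_smul_right]
    have e2 := max_add_min (v x) (v (rf ν x))
    rw [e1, show min (v x) (v (rf ν x)) = v x + v (rf ν x) - max (v x) (v (rf ν x)) by linarith]
    ring
  have k2 : ∀ x, 0 ≤ ⟪ν, x⟫ → 0 ≤ g x + g (rf ν x) := fun x hx => by
    rw [key x hx]
    exact mul_nonneg (sub_nonneg.2 (le_max_left _ _)) (by positivity)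
  by_contra hcon
  have h3 := (hgc.add hgc').integral_pos_of_hasCompactSupport_nonneg_nonzero (μ := volume) (x := z)
    (hcs (R := R) fun x hx => by simp [hgs x hx, hgs' x hx]) (fun x => by
      rcases side hν x with hx | ⟨x, hx, rfl⟩
      · exact k2 x hx
      · simpa [rf_rf, add_comm] using k2 x hx) (by
      change g z + g (rf ν z) ≠ 0
      rw [key z hz.le, max_eq_right (not_le.1 hcon).le]
      exact (mul_pos (sub_pos.2 (not_le.1 hcon)) (by positivity)).ne')
  change 0 < ∫ x, g x + g (rf ν x) at h3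
  rw [integral_add hgi (hgc'.integrable_of_hasCompactSupport (hcs hgs')), h2] at h3
  linarith

lemma sym (hp : 1 ≤ p) (hd : 0 < d) {e : E} (he : ‖e‖ = 1) {u : E → ℝ} (hu : Kl p K R d c M u) :
    ∃ v : E → ℝ, Kl p K R d c M v ∧ ∀ r, d ≤ r → v (-(r • e)) = 0 := by
  have hb : ∀ v : E → ℝ, Kl p K R d c M v → ∀ x, ‖v x * ⟪e, x⟫‖ ≤
      (closedBall (0 : E) R).indicator (fun _ => (c + K * |R|) * R) x := by
    intro v hv x
    by_cases hx : x ∈ closedBall (0 : E) R
    · rw [indicator_of_mem hx, norm_mul, Real.norm_of_nonneg (hv.nn x)]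
      refine mul_le_mul (hv.bd x) ((norm_inner_le_norm _ _).trans ?_) (norm_nonneg _)
        ((hv.nn x).trans (hv.bd x))
      rw [he, one_mul]; exact mem_closedBall_zero_iff.1 hx
    · rw [indicator_of_notMem hx, hv.supp x (by rw [mem_closedBall_zero_iff] at hx; linarith)]
      simp
  have hbi : Integrable ((closedBall (0 : E) R).indicator fun _ => (c + K * |R|) * R) :=
    (integrable_indicator_iff measurableSet_closedBall).2
      (integrableOn_const measure_closedBall_lt_top.ne)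
  have hS : BddAbove (J e '' {v | Kl p K R d c M v}) := by
    refine ⟨∫ x, (closedBall (0 : E) R).indicator (fun _ => (c + K * |R|) * R) x, ?_⟩
    rintro _ ⟨v, hv, rfl⟩
    exact (le_abs_self _).trans (norm_integral_le_of_norm_le hbi (Eventually.of_forall (hb v hv)))
  obtain ⟨s, -, hs, hs'⟩ := exists_seq_tendsto_sSup (S := J e '' {v | Kl p K R d c M v})
    ⟨_, u, hu, rfl⟩ hS
  choose v hv hvs using hs'
  obtain ⟨φ, w, hφ, hw, ht⟩ := Kl.lim hv
  have h1 : Tendsto (fun k => J e (v (φ k))) atTop (𝓝 (J e w)) :=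
    tendsto_integral_of_dominated_convergence _ (fun k => Continuous.aestronglyMeasurable (by
      have := (hv (φ k)).lip.continuous; fun_prop)) hbi
      (fun k => Eventually.of_forall (hb _ (hv _))) (Eventually.of_forall fun x => (ht x).mul_const _)
  simp only [hvs] at h1
  have h2 := tendsto_nhds_unique h1 (hs.comp hφ.tendsto_atTop)
  refine ⟨w, hw, fun r hr => ?_⟩
  obtain ⟨z, hz, h0⟩ := hw.zero r hr
  by_cases hzz : z + r • e = 0
  · rwa [← eq_neg_of_add_eq_zero_left hzz]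
  have hr0 : 0 < r := hd.trans_le hr
  have hn := norm_pos_iff.2 hzz
  obtain ⟨ν, hνd⟩ : ∃ ν, ν = ‖z + r • e‖⁻¹ • (z + r • e) := ⟨_, rfl⟩
  have hν : ‖ν‖ = 1 := hνd ▸ norm_smul_inv_norm hzz
  have e1 : ‖z + r • e‖ ^ 2 = 2 * r * (r + ⟪e, z⟫) := by
    rw [norm_add_sq_real, norm_smul, he, hz, inner_smul_right, real_inner_comm, Real.norm_eq_abs,
      abs_of_pos hr0]; ring
  have e2 : 0 < r + ⟪e, z⟫ := by
    have : 0 < 2 * r * (r + ⟪e, z⟫) := e1 ▸ pow_pos hn 2
    exact (mul_pos_iff_of_pos_left (by positivity)).1 this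
  have e3 : ⟪ν, z⟫ = ‖z + r • e‖⁻¹ * (r * (r + ⟪e, z⟫)) := by
    rw [hνd, real_inner_smul_left, inner_add_left, real_inner_smul_left, real_inner_self_eq_norm_sq,
      hz]; ring
  have e4 : ⟪e, ν⟫ = ‖z + r • e‖⁻¹ * (r + ⟪e, z⟫) := by
    rw [hνd, inner_smul_right, inner_add_right, inner_smul_right, real_inner_self_eq_norm_sq, he]
    ring
  have e5 : rf ν z = -(r • e) := by
    rw [rf_apply hν, e3, hνd, smul_smul]
    have : 2 * (‖z + r • e‖⁻¹ * (r * (r + ⟪e, z⟫))) * ‖z + r • e‖⁻¹ = 1 := by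
      field_simp; linarith
    rw [this, one_smul]; abel
  have h3 := J_pol (e := e) hν (by rw [e4]; positivity) hw.lip hw.supp
    (h2 ▸ le_csSup hS ⟨_, hw.pol hp hν, rfl⟩) (z := z) (by rw [e3]; positivity)
  rw [e5, h0] at h3
  exact le_antisymm h3 (hw.nn _)

end Pool.Agent.H.MP_f42450_an
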