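import Pool.Agent.H.MP_f42450_an.A

namespace Pool.Agent.H.MP_f42450_an

open Set Metric MeasureTheory Filter Topology
open scoped ENNReal NNReal RealInnerProductSpace Convolution ContDiff

lemma jen {α : Type} [MeasurableSpace α] (μ : Measure α) [IsProbabilityMeasure μ] {p : ℝ}
    (hp : 1 < p) {f : α → ℝ≥0∞} (hf : AEMeasurable f μ) :
    (∫⁻ x, f x ∂μ) ^ p ≤ ∫⁻ x, f x ^ p ∂μ := by
  have h := ENNReal.lintegral_mul_le_Lp_mul_Lq μ (Real.HolderConjugate.conjExponent hp) hf
    (g := fun _ => 1) aemeasurable_const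
  simp only [Pi.mul_apply, mul_one, ENNReal.one_rpow, lintegral_const, measure_univ] at h
  refine (ENNReal.rpow_le_rpow h (by linarith)).trans (le_of_eq ?_)
  rw [← ENNReal.rpow_mul, one_div_mul_cancel (by linarith), ENNReal.rpow_one]

variable {E : Type} [NormedAddCommGroup E] [InnerProductSpace ℝ E] [FiniteDimensional ℝ E]
  [MeasurableSpace E] [BorelSpace E] {p : ℝ}

noncomputable def kap (p : ℝ) (g : E) : ℝ≥0∞ := ∫⁻ ζ in ball (0 : E) 1, ‖⟪g, ζ⟫‖ₑ ^ p

lemma kap_meas (p : ℝ) (g : E) : Measurable fun ζ : E => ‖⟪g, ζ⟫‖ₑ ^ p :=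
  (Continuous.measurable (by fun_prop : Continuous fun ζ : E => ⟪g, ζ⟫)).enorm.pow_const p

lemma kap_eq (hp : 0 < p) {e : E} (he : ‖e‖ = 1) (g : E) : kap p g = ‖g‖ₑ ^ p * kap p e := by
  have h1 : rf (‖g‖ • e - g) (‖g‖ • e) = g :=
    Submodule.reflection_sub (by rw [norm_smul, he, norm_norm, mul_one])
  obtain ⟨σ, hσ⟩ : ∃ σ, σ = rf (‖g‖ • e - g) := ⟨_, rfl⟩
  rw [← hσ] at h1
  have h2 := σ.measurePreserving.setLIntegral_comp_preimage (s := ball (0 : E) 1)
    measurableSet_ball (kap_meas p g)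
  have h3 : σ ⁻¹' ball (0 : E) 1 = ball 0 1 := by ext x; simp
  rw [kap, ← h2, h3, kap, ← lintegral_const_mul _ (kap_meas p e)]
  refine lintegral_congr fun ζ => ?_
  conv_lhs => rw [← h1, σ.inner_map_map, real_inner_smul_left, enorm_mul,
    ENNReal.mul_rpow_of_nonneg _ _ hp.le, enorm_norm]

lemma kap_ne_top (hp : 0 < p) {e : E} (he : ‖e‖ = 1) : kap p e ≠ ⊤ := by
  refine ne_top_of_le_ne_top (b := ∫⁻ _ in ball (0 : E) 1, 1) (by simp [measure_ball_lt_top.ne]) ?_
  refine setLIntegral_mono' measurableSet_ball fun x hx => ENNReal.rpow_le_one ?_ hp.le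
  rw [← ofReal_norm, ENNReal.ofReal_le_one]
  refine (norm_inner_le_norm _ _).trans ?_
  rw [he, one_mul]; exact (mem_ball_zero_iff.1 hx).le

lemma kap_ne_zero (hp : 0 < p) {e : E} (he : ‖e‖ = 1) : kap p e ≠ 0 := by
  refine ((setLIntegral_pos_iff (kap_meas p e)).2 ?_).ne'
  have ho : IsOpen ({ζ : E | ⟪e, ζ⟫ ≠ 0} ∩ ball 0 1) :=
    (isOpen_ne_fun (by fun_prop) continuous_const).inter isOpen_ball
  refine (ho.measure_pos volume ⟨(1 / 2 : ℝ) • e, ?_, ?_⟩).trans_le (measure_mono ?_)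
  · simp [inner_smul_right, he]
  · rw [mem_ball_zero_iff, norm_smul, he]; norm_num
  · intro x hx
    refine ⟨?_, hx.2⟩
    have : ⟪e, x⟫ ≠ 0 := hx.1
    simp [this, hp.le]

lemma diffq (hp : 1 < p) {w : E → ℝ} (hw : ContDiff ℝ 1 w) (z : E) :
    ∫⁻ x, ‖w (x + z) - w x‖ₑ ^ p ≤ ∫⁻ x, ‖fderiv ℝ w x z‖ₑ ^ p := by
  have hc : Continuous (fderiv ℝ w) := hw.continuous_fderiv (by norm_num)
  have : IsProbabilityMeasure (volume.restrict (Ioc (0 : ℝ) 1)) := ⟨by simp⟩
  have h1 : ∀ x, ‖w (x + z) - w x‖ₑ ^ p ≤ ∫⁻ t in Ioc (0 : ℝ) 1, ‖fderiv ℝ w (x + t • z) z‖ₑ ^ p := by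
    intro x
    have hd : ∀ t : ℝ, HasDerivAt (fun t : ℝ => w (x + t • z)) (fderiv ℝ w (x + t • z) z) t := by
      intro t
      have h1 : HasDerivAt (fun t : ℝ => x + t • z) z t := by
        simpa using ((hasDerivAt_id t).smul_const z).const_add x
      exact ((hw.differentiable (by norm_num)) _).hasFDerivAt.comp_hasDerivAt t h1
    have hc2 : Continuous fun t : ℝ => fderiv ℝ w (x + t • z) z := by fun_prop
    have h := intervalIntegral.integral_eq_sub_of_hasDerivAt (a := 0) (b := 1) (fun t _ => hd t)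
      (hc2.intervalIntegrable _ _)
    rw [one_smul, zero_smul, add_zero, intervalIntegral.integral_of_le zero_le_one] at h
    rw [← h]
    exact (ENNReal.rpow_le_rpow (enorm_integral_le_lintegral_enorm _) (by linarith)).trans
      (jen _ hp hc2.measurable.enorm.aemeasurable)
  refine (lintegral_mono h1).trans ?_
  rw [lintegral_lintegral_swap (Measurable.aemeasurable ((Continuous.measurable (by
    change Continuous fun q : E × ℝ => fderiv ℝ w (q.1 + q.2 • z) z
    fun_prop)).enorm.pow_const p))]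
  simp only [lintegral_add_right_eq_self (fun x => ‖fderiv ℝ w x z‖ₑ ^ p)]
  simp

def WG (u : E → ℝ) (G : E → E) : Prop :=
  ∀ φ : E → ℝ, ContDiff ℝ ∞ φ → HasCompactSupport φ → ∀ z : E,
    ∫ x, u x * fderiv ℝ φ x z = -∫ x, ⟪G x, z⟫ * φ x

lemma start (hp : 1 < p) {e : E} (he : ‖e‖ = 1) {u : E → ℝ} (hu : Continuous u)
    (hs : HasCompactSupport u) {G0 : E → E} (hG0 : AEStronglyMeasurable G0) (hW0 : WG u G0) {ε : ℝ}
    (hε : 0 < ε) : ∃ (K : ℝ≥0) (w : E → ℝ), LipschitzWith K w ∧ (∀ x, |w x - u x| ≤ ε) ∧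
      ∀ h, 0 < h → N p h w ≤ ENNReal.ofReal (h ^ p) * (kap p e * ∫⁻ x, ‖G0 x‖ₑ ^ p) := by
  obtain ⟨G, hG, hGG⟩ := hG0
  have hW : WG u G := fun φ h1 h2 z => (hW0 φ h1 h2 z).trans (by
    congr 1
    exact integral_congr_ae (hGG.mono fun x hx => by simp [hx]))
  rw [lintegral_congr_ae (g := fun x => ‖G x‖ₑ ^ p) (hGG.mono fun x hx => by simp [hx])]
  replace hG := hG.measurable
  obtain ⟨δ, hδ, H⟩ := Metric.uniformContinuous_iff.1 (hs.uniformContinuous_of_continuous hu) ε hε
  obtain ⟨φ, hφ⟩ : ∃ φ : ContDiffBump (0 : E), φ.rOut = δ := ⟨⟨δ / 2, δ, by positivity, by linarith⟩, rfl⟩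
  obtain ⟨η, hη⟩ : ∃ η, η = φ.normed volume := ⟨_, rfl⟩
  have hηs : ContDiff ℝ ∞ η := hη ▸ φ.contDiff_normed
  have hη1 : ContDiff ℝ 1 η := hη ▸ φ.contDiff_normed
  have hηc : HasCompactSupport η := hη ▸ φ.hasCompactSupport_normed
  have hη0 : ∀ x, 0 ≤ η x := hη ▸ φ.nonneg_normed
  have hηi : ∫⁻ x, ENNReal.ofReal (η x) = 1 := by
    rw [← ofReal_integral_eq_lintegral_ofReal (hη1.continuous.integrable_of_hasCompactSupport hηc)
      (Eventually.of_forall hη0), hη, φ.integral_normed, ENNReal.ofReal_one]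
  obtain ⟨w, hw⟩ : ∃ w, w = u ⋆[(ContinuousLinearMap.lsmul ℝ ℝ).flip, volume] η := ⟨_, rfl⟩
  have hul := hu.locallyIntegrable (μ := volume)
  have hw1 : ContDiff ℝ 1 w := hw ▸ hηc.contDiff_convolution_right _ hul hη1
  obtain ⟨K, hK⟩ := ContDiff.lipschitzWith_of_hasCompactSupport
    (hw ▸ hs.convolution _ hηc : HasCompactSupport w) hw1 (by simp)
  have hd : ∀ x z, fderiv ℝ w x z = ∫ y, ⟪G y, z⟫ * η (x - y) := by
    intro x z
    rw [hw, (hηc.hasFDerivAt_convolution_right _ hul hη1 x).fderiv,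
      convolution_precompR_apply _ hul (hηc.fderiv ℝ) (hη1.continuous_fderiv (by simp)),
      convolution_def]
    have h1 := hW (fun y => η (x - y)) (hηs.comp (contDiff_const.sub contDiff_id))
      (hηc.comp_homeomorph (Homeomorph.subLeft x)) z
    have h2 : ∀ y, fderiv ℝ (fun y => η (x - y)) y z = -fderiv ℝ η (x - y) z := by
      intro y
      have := ((hη1.differentiable (by simp)) (x - y)).hasFDerivAt.comp y
        ((hasFDerivAt_id y).const_sub x)
      rw [show (fun y => η (x - y)) = η ∘ HSub.hSub x from rfl, this.fderiv]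
      simp
    simp only [h2, mul_neg, integral_neg, neg_inj] at h1
    rw [← h1]
    simp [mul_comm]
  have hm : ∀ z : E, Measurable fun y => ‖⟪G y, z⟫‖ₑ := fun z =>
    (hG.inner_const (𝕜 := ℝ)).enorm
  have hρ : Measurable fun q : E × E => ENNReal.ofReal (η (q.1 - q.2)) :=
    (Continuous.measurable (by have := hη1.continuous; fun_prop)).ennreal_ofReal
  have h3 : ∀ x z, ‖fderiv ℝ w x z‖ₑ ^ p ≤
      ∫⁻ y, ENNReal.ofReal (η (x - y)) * ‖⟪G y, z⟫‖ₑ ^ p := by
    intro x z
    have hρx : Measurable fun y => ENNReal.ofReal (η (x - y)) :=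
      hρ.comp (measurable_const.prodMk measurable_id)
    have : IsProbabilityMeasure (volume.withDensity fun y => ENNReal.ofReal (η (x - y))) := ⟨by
      rw [withDensity_apply _ MeasurableSet.univ, Measure.restrict_univ,
        lintegral_sub_left_eq_self (fun y => ENNReal.ofReal (η y)), hηi]⟩
    have h4 := jen (volume.withDensity fun y => ENNReal.ofReal (η (x - y))) hp (hm z).aemeasurable
    rw [lintegral_withDensity_eq_lintegral_mul _ hρx (hm z),
      lintegral_withDensity_eq_lintegral_mul _ hρx ((hm z).pow_const p)] at h4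
    refine le_trans (ENNReal.rpow_le_rpow ?_ (by linarith)) h4
    rw [hd]
    refine (enorm_integral_le_lintegral_enorm _).trans (le_of_eq (lintegral_congr fun y => ?_))
    rw [enorm_mul, Pi.mul_apply, mul_comm, Real.enorm_of_nonneg (hη0 _)]
  have h4 : ∀ z, ∫⁻ x, ‖w (x + z) - w x‖ₑ ^ p ≤ ∫⁻ y, ‖⟪G y, z⟫‖ₑ ^ p := by
    intro z
    refine (diffq hp hw1 z).trans ((lintegral_mono fun x => h3 x z).trans (le_of_eq ?_))
    rw [lintegral_lintegral_swap (hρ.mul (((hm z).pow_const p).comp measurable_snd)).aemeasurable]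
    refine lintegral_congr fun y => ?_
    have hρy : Measurable fun x => ENNReal.ofReal (η (x - y)) :=
      hρ.comp (measurable_id.prodMk measurable_const)
    rw [lintegral_mul_const _ hρy, lintegral_sub_right_eq_self (fun y => ENNReal.ofReal (η y)), hηi,
      one_mul]
  refine ⟨K, w, hK, fun x => ?_, fun h hh => ?_⟩
  · rw [hw, convolution_flip, hη, ← Real.dist_eq]
    exact φ.dist_normed_convolution_le hu.aestronglyMeasurable fun y hy =>
      (H (by rwa [mem_ball, hφ] at hy)).le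
  · rw [N, lintegral_prod_symm _ (N_meas p h hK.continuous).aemeasurable]
    refine (lintegral_mono fun ζ => h4 (h • ζ)).trans (le_of_eq ?_)
    rw [lintegral_lintegral_swap (Measurable.aemeasurable (Measurable.pow_const (Measurable.enorm
      (Measurable.inner (𝕜 := ℝ) (hG.comp measurable_snd) (measurable_fst.const_smul h))) p)),
      mul_comm (kap p e), ← mul_assoc, ← lintegral_const_mul _ (hG.enorm.pow_const p),
      ← lintegral_mul_const _ ((hG.enorm.pow_const p).const_mul _)]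
    refine lintegral_congr fun y => ?_
    have h5 := kap_eq (by linarith : 0 < p) he (h • G y)
    rw [enorm_smul, ENNReal.mul_rpow_of_nonneg _ _ (by linarith), Real.enorm_of_nonneg hh.le,
      ENNReal.ofReal_rpow_of_pos hh] at h5
    rw [← h5, kap]
    simp only [inner_smul_right, real_inner_smul_left]

lemma grad_inner (v : E → ℝ) (x z : E) : ⟪gradient v x, z⟫ = fderiv ℝ v x z := by
  rw [gradient, InnerProductSpace.toDual_symm_apply]

lemma grad_meas (v : E → ℝ) : Measurable (gradient v) :=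
  (InnerProductSpace.toDual ℝ E).symm.continuous.measurable.comp (measurable_fderiv ℝ v)

lemma fin_wg {v : E → ℝ} {K : ℝ≥0} (hv : LipschitzWith K v) : WG v (gradient v) := by
  intro φ h1 h2 z
  obtain ⟨D, hD⟩ := ContDiff.lipschitzWith_of_hasCompactSupport h2 h1 (by simp)
  have h := hv.integral_lineDeriv_mul_eq (μ := volume) hD h2 z
  simp only [(h1.differentiable (by simp) _).lineDeriv_eq_fderiv, map_neg, neg_mul,
    integral_neg] at h
  rw [integral_congr_ae (g := fun x => ⟪gradient v x, z⟫ * φ x)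
    (hv.ae_differentiableAt.mono fun x hx => by simp [hx.lineDeriv_eq_fderiv, grad_inner])] at h
  rw [h, neg_neg]
  simp [mul_comm]

lemma fin_en (hp : 1 < p) {e : E} (he : ‖e‖ = 1) {v : E → ℝ} {K : ℝ≥0} (hv : LipschitzWith K v)
    {A : ℝ≥0∞} (h : ∀ h, 0 < h → N p h v ≤ ENNReal.ofReal (h ^ p) * (kap p e * A)) :
    ∫⁻ x, ‖gradient v x‖ₑ ^ p ≤ A := by
  have hp0 : 0 < p := by linarith
  have hc := hv.continuous
  have h1 := lintegral_liminf_le (μ := volume.prod (volume.restrict (ball (0 : E) 1)))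
    (u := 𝓝[>] (0 : ℝ)) (f := fun t q => ‖t⁻¹ • (v (q.1 + t • q.2) - v q.1)‖ₑ ^ p)
    fun t => (Continuous.measurable (by fun_prop)).enorm.pow_const p
  have h2 : liminf (fun t : ℝ => ∫⁻ q : E × E, ‖t⁻¹ • (v (q.1 + t • q.2) - v q.1)‖ₑ ^ p
      ∂(volume.prod (volume.restrict (ball (0 : E) 1)))) (𝓝[>] 0) ≤ kap p e * A := by
    refine liminf_le_of_frequently_le' (Eventually.frequently ?_)
    filter_upwards [self_mem_nhdsWithin] with t ht
    have ht' : 0 < t := ht
    simp only [enorm_smul, ENNReal.mul_rpow_of_nonneg _ _ hp0.le]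
    rw [lintegral_const_mul _ (N_meas p t hc)]
    refine (mul_le_mul_right (h t ht') _).trans (le_of_eq ?_)
    rw [Real.enorm_of_nonneg (by positivity), ENNReal.ofReal_rpow_of_pos (by positivity), ← mul_assoc,
      ← ENNReal.ofReal_mul (by positivity), Real.inv_rpow ht'.le, inv_mul_cancel₀ (by positivity),
      ENNReal.ofReal_one, one_mul]
  have h3 : ∫⁻ q : E × E, ‖⟪gradient v q.1, q.2⟫‖ₑ ^ p
      ∂(volume.prod (volume.restrict (ball (0 : E) 1))) ≤ kap p e * A := by
    refine le_trans (le_of_eq (lintegral_congr_ae ?_)) (h1.trans h2)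
    filter_upwards [Measure.quasiMeasurePreserving_fst.ae hv.ae_differentiableAt] with q hq
    rw [grad_inner]
    exact ((ENNReal.continuous_rpow_const.tendsto _).comp
      (hq.hasFDerivAt.hasLineDerivAt q.2).tendsto_slope_zero_right.enorm).liminf_eq.symm
  have hm : Measurable fun q : E × E => ‖⟪gradient v q.1, q.2⟫‖ₑ ^ p :=
    (Measurable.inner (𝕜 := ℝ) ((grad_meas v).comp measurable_fst) measurable_snd).enorm.pow_const p
  rw [lintegral_prod _ hm.aemeasurable] at h3
  change ∫⁻ x, kap p (gradient v x) ≤ _ at h3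
  simp only [kap_eq hp0 he (gradient v _)] at h3
  rwa [lintegral_mul_const _ ((grad_meas v).enorm.pow_const p), mul_comm,
    ENNReal.mul_le_mul_iff_right (kap_ne_zero hp0 he) (kap_ne_top hp0 he)] at h3

lemma N_tr (p h : ℝ) {v : E → ℝ} (hv : Continuous v) (a : E) :
    N p h (fun x => v (a + x)) = N p h v := by
  rw [N, N, lintegral_prod _ (N_meas p h hv).aemeasurable,
    lintegral_prod _ (N_meas p h (v := fun x => v (a + x)) (by fun_prop)).aemeasurable,
    ← lintegral_add_left_eq_self (fun x => ∫⁻ y in ball (0 : E) 1, ‖v (x + h • y) - v x‖ₑ ^ p) a]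
  simp only [add_assoc]

/-- main symmetrisation statement -/
lemma main (hp : 1 < p) {e : E} (he : ‖e‖ = 1) {u : E → ℝ} (hu : Continuous u)
    (hs : HasCompactSupport u) {G : E → E} (hG : AEStronglyMeasurable G) (hW : WG u G) (x : E)
    {d : ℝ} (hd : 0 < d) (hz : ∀ r, d ≤ r → ∃ z, ‖z‖ = r ∧ u (x + z) = 0) {ε : ℝ} (hε : 0 < ε) :
    ∃ (K : ℝ≥0) (w : E → ℝ), LipschitzWith K w ∧ (∀ t : ℝ, 0 ≤ t → w (-(t • e)) = 0) ∧
      |u x| - ε ≤ w (d • e) ∧ ∫⁻ y, ‖gradient w y‖ₑ ^ p ≤ ∫⁻ y, ‖G y‖ₑ ^ p := by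
  obtain ⟨K, w, hK, hw, hN⟩ := start hp he hu hs hG hW (half_pos hε)
  obtain ⟨R, hR⟩ := hs.isCompact.isBounded.subset_ball x
  have hl : ∀ a b : ℝ, |max (|a| - ε / 2) 0 - max (|b| - ε / 2) 0| ≤ |a - b| := fun a b =>
    (abs_max_sub_max_le_abs _ _ _).trans (by
      rw [sub_sub_sub_cancel_right]; exact abs_abs_sub_abs_le_abs_sub a b)
  have h0 : ∀ z, u (x + z) = 0 → max (|w (x + z)| - ε / 2) 0 = 0 := fun z hz =>
    max_eq_right (by have := hw (x + z); rw [hz, sub_zero] at this; linarith)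
  have hk : Kl p K R d (max (|w x| - ε / 2) 0) (kap p e * ∫⁻ y, ‖G y‖ₑ ^ p)
      (fun y => max (|w (x + y)| - ε / 2) 0) := by
    refine ⟨LipschitzWith.of_dist_le_mul fun y z => (hl _ _).trans ?_, fun _ => le_max_right _ _,
      fun z hz => h0 z (image_eq_zero_of_notMem_tsupport fun h => ?_), by simp, fun r hr => ?_,
      fun h hh => le_trans ?_ ((N_tr p h hK.continuous x).trans_le (hN h hh))⟩
    · simpa [Real.dist_eq] using hK.dist_le_mul (x + y) (x + z)
    · have := hR h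
      rw [mem_ball, dist_self_add_left] at this
      linarith
    · obtain ⟨z, h1, h2⟩ := hz r hr
      exact ⟨z, h1, h0 z h2⟩
    · refine lintegral_mono fun q => ENNReal.rpow_le_rpow ?_ (by linarith)
      rw [← ofReal_norm, ← ofReal_norm]
      exact ENNReal.ofReal_le_ofReal (hl _ _)
  obtain ⟨v, hv, hv0⟩ := sym hp.le hd he hk
  have hl2 : LipschitzWith K fun y => v (-(d • e) + y) :=
    LipschitzWith.of_dist_le_mul fun y z => by simpa using hv.lip.dist_le_mul (-(d • e) + y) (-(d • e) + z)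
  refine ⟨K, _, hl2, fun t ht => ?_, ?_, fin_en hp he hl2 fun h hh =>
    (N_tr p h hv.lip.continuous _).trans_le (hv.en h hh)⟩
  · rw [← neg_add, ← add_smul d t e]; exact hv0 _ (by linarith)
  · rw [neg_add_cancel, hv.c0]
    have h1 := hw x
    have h2 := abs_sub_abs_le_abs_sub (u x) (w x)
    rw [abs_sub_comm] at h2
    exact le_max_of_le_left (by linarith)

end Pool.Agent.H.MP_f42450_an
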