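import Pool.Agent.H.MP_f42450_an.B

namespace Pool.Agent.H.MP_f42450_an

open Set Metric MeasureTheory Filter Topology
open scoped ENNReal NNReal RealInnerProductSpace

lemma fr {X : Type} [TopologicalSpace X] {Ω s : Set X} (hΩ : IsOpen Ω) (hs : IsPreconnected s)
    (h1 : (s ∩ Ω).Nonempty) (h2 : ¬ s ⊆ Ω) : ∃ y ∈ s, y ∈ frontier Ω := by
  by_contra hc
  push Not at hc
  refine h2 (hs.subset_of_closure_inter_subset hΩ h1 fun y hy => ?_)
  by_contra h
  exact hc y hy.2 (by rw [hΩ.frontier_eq]; exact ⟨hy.1, h⟩)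

lemma geom {n : ℕ} {Ω : Set (EuclideanSpace ℝ (Fin (n + 1)))} (hΩ : IsOpen Ω)
    (hb : Bornology.IsBounded Ω)
    (hf : Nonempty (frontier Ω ≃ₜ sphere (0 : EuclideanSpace ℝ (Fin (n + 1))) 1))
    {x : EuclideanSpace ℝ (Fin (n + 1))} (hx : x ∈ Ω) (hne : Ωᶜ.Nonempty) {r : ℝ}
    (hr : infDist x Ωᶜ ≤ r) : ∃ z, ‖z‖ = r ∧ x + z ∉ Ω := by
  obtain ⟨y, hy, hyd⟩ := hΩ.isClosed_compl.exists_infDist_eq_dist hne x
  by_contra hc
  push Not at hc
  have hr0 : 0 ≤ r := infDist_nonneg.trans hr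
  have hlt : dist x y < r := by
    refine lt_of_le_of_ne (hyd ▸ hr) fun h => hy ?_
    simpa using hc (y - x) (by rw [← h, dist_comm, dist_eq_norm])
  obtain ⟨y0, hy0, hy0f⟩ := fr hΩ (convex_ball x r).isPreconnected
    ⟨x, mem_ball_self (dist_nonneg.trans_lt hlt), hx⟩ fun h => hy (h (by rwa [mem_ball, dist_comm]))
  obtain ⟨R, hR⟩ := hb.subset_ball x
  have hns : ∀ y ∈ frontier Ω, dist y x ≠ r := by
    intro y hy h
    rw [hΩ.frontier_eq] at hy
    exact hy.2 (by simpa using hc (y - x) (by rw [← h, dist_eq_norm]))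
  have ray : ∀ e : EuclideanSpace ℝ (Fin (n + 1)), ‖e‖ = 1 →
      ∃ t : ℝ, r < t ∧ x + t • e ∈ frontier Ω := by
    intro e he
    have hn : ∀ t : ℝ, 0 ≤ t → ‖t • e‖ = t := fun t ht => by
      rw [norm_smul, he, mul_one, Real.norm_of_nonneg ht]
    obtain ⟨_, ⟨t, ht, rfl⟩, h⟩ := fr hΩ
      (isPreconnected_Ici.image (fun t : ℝ => x + t • e) (by fun_prop) : IsPreconnected
        ((fun t : ℝ => x + t • e) '' Ici r))
      ⟨_, ⟨r, self_mem_Ici, rfl⟩, hc _ (hn r hr0)⟩ fun h => by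
        have := hR (h ⟨max r R, mem_Ici.2 (le_max_left _ _), rfl⟩)
        rw [mem_ball, dist_self_add_left, hn _ (le_max_of_le_left hr0)] at this
        linarith [le_max_right r R]
    refine ⟨t, lt_of_le_of_ne ht fun h' => hns _ h ?_, h⟩
    rw [dist_self_add_left, hn t (hr0.trans ht), h']
  obtain ⟨Φ⟩ := hf
  obtain ⟨e, he⟩ : ∃ e : EuclideanSpace ℝ (Fin (n + 1)), e = EuclideanSpace.single 0 1 := ⟨_, rfl⟩
  have he1 : ‖e‖ = 1 := by simp [he]
  obtain ⟨t1, ht1, h1⟩ := ray e he1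
  have hd : ∀ (t : ℝ) (e : EuclideanSpace ℝ (Fin (n + 1))), ‖e‖ = 1 → r < t → r < dist (x + t • e) x :=
    fun t e he ht => by
      rwa [dist_self_add_left, norm_smul, he, mul_one, Real.norm_of_nonneg (by linarith)]
  rcases Nat.eq_zero_or_pos n with rfl | hn
  · obtain ⟨t2, ht2, h2⟩ := ray (-e) (by simpa using he1)
    have hs : ∀ a : sphere (0 : EuclideanSpace ℝ (Fin (0 + 1))) 1, a.1 0 = 1 ∨ a.1 0 = -1 := by
      intro a
      have := mem_sphere_zero_iff_norm.1 a.2
      rw [EuclideanSpace.norm_eq, Real.sqrt_eq_one] at this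
      simpa using this
    have hi : ∀ a b : frontier Ω, (Φ a).1 0 = (Φ b).1 0 → a.1 = b.1 := fun a b h =>
      congrArg Subtype.val (Φ.injective (Subtype.ext (by
        ext i; rw [show i = 0 from Fin.ext (by omega)]; exact h)))
    have n1 : y0 ≠ x + t1 • e := fun h => by
      have := hd t1 e he1 ht1; rw [← h] at this; exact lt_asymm this hy0
    have n2 : y0 ≠ x + t2 • -e := fun h => by
      have := hd t2 (-e) (by simpa using he1) ht2; rw [← h] at this; exact lt_asymm this hy0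
    have n3 : x + t1 • e ≠ x + t2 • -e := fun h => by
      have := congrArg (fun v => v 0) (add_left_cancel h)
      simp [he] at this
      linarith
    rcases hs (Φ ⟨_, hy0f⟩) with a | a <;> rcases hs (Φ ⟨_, h1⟩) with b | b <;>
      rcases hs (Φ ⟨_, h2⟩) with c | c <;>
      first
        | exact n1 (hi _ _ (a.trans b.symm))
        | exact n2 (hi _ _ (a.trans c.symm))
        | exact n3 (hi _ _ (b.trans c.symm))
  · have hp : IsPreconnected (sphere (0 : EuclideanSpace ℝ (Fin (n + 1))) 1) :=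
      isPreconnected_sphere (by
        rw [← Module.finrank_eq_rank, finrank_euclideanSpace_fin]
        exact_mod_cast (by omega : 1 < n + 1)) _ _
    have hp' : IsPreconnected (frontier Ω) := by
      rw [isPreconnected_iff_preconnectedSpace] at hp ⊢
      exact Φ.symm.surjective.denseRange.preconnectedSpace Φ.symm.continuous
    obtain ⟨z, -, hz1, hz2⟩ := hp' (ball x r) (closedBall x r)ᶜ isOpen_ball
      isClosed_closedBall.isOpen_compl (fun y hy => by
        rcases lt_or_gt_of_ne (hns y hy) with h | h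
        · exact Or.inl h
        · exact Or.inr (not_le.2 h)) ⟨y0, hy0f, hy0⟩ ⟨_, h1, not_le.2 (hd t1 e he1 ht1)⟩
    exact hz2 (ball_subset_closedBall hz1)

end Pool.Agent.H.MP_f42450_an
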